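import Pool.Agent.MP_28624d_gt.Mg.Main
import Pool.Agent.MP_28624d_gt.Mg.Dense

namespace Pool.Agent.Results.MP_28624d_gt.OddSL2R

open MeasureTheory Pool.Agent.MP_28624d_gt

theorem result (n : ℕ) (h3 : 3 ≤ n) (hodd : Odd n) [MeasurableSpace G] [BorelSpace G]
    (μ : Measure G) [μ.IsHaarMeasure] :
    ∀ᵐ x ∂(Measure.pi fun _ : Fin n => μ),
      Redundant (FreeGroup.lift x) ∨
        (PrimStable (FreeGroup.lift x) ∧ QIEmb (FreeGroup.lift x)) := by
  filter_upwards [ae_generic n μ] with x hx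
  by_cases hred : Redundant (FreeGroup.lift x)
  · exact Or.inl hred
  · have h := qi_of_hd h3 hodd (hd_of_generic hx hred)
    exact Or.inr ⟨primStable_of_qi h, qiEmb_of_qi h⟩

end Pool.Agent.Results.MP_28624d_gt.OddSL2R
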