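import Pool.Agent.MP_28624d_gt.Mg.K_Main

namespace Pool.Agent.Results.MP_28624d_gt.SL4R

open MeasureTheory Pool.Agent.MP_28624d_gt.L4

theorem result [MeasurableSpace G] [BorelSpace G] (μ : Measure G) [μ.IsHaarMeasure] :
    ∃ S : Set (Fin 3 → G), MeasurableSet S ∧ 0 < (Measure.pi fun _ : Fin 3 => μ) S ∧
      ∀ x ∈ S, ¬ Redundant (FreeGroup.lift x) ∧ ¬ PrimStable (FreeGroup.lift x) :=
  ⟨W, measurableSet_W, pos_iff_ne_zero.2 (Pool.Agent.MP_28624d_gt.K.kam μ), fun _ hx =>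
    ⟨not_redundant_of_W hx, not_primStable_of_W hx⟩⟩

end Pool.Agent.Results.MP_28624d_gt.SL4R
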